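import Pool.Agent.Lib.DU.D.K3b
import Pool.Agent.Lib.DU.O.L6

/-!
# Theorem DU (`p = 3` ramified), part D: valuations at the points of order `pp ^ j` (module `D10`; helper58)
-/

set_option autoImplicit false

open scoped Pointwise nonZeroDivisors

noncomputable section

namespace Pool.Agent.DM.DU

open Pool.Agent.MuZ Pool.Agent.FW Pool.Agent.DN NumberField IsDedekindDomain
open Pool.Agent.DI (io ofC io_inj exists_io io_ofC ofC_io VP MP UP TP ex)
open Pool.Agent.DL (vl GE Pl)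
open Pool.Agent.DM.K3 (Lc pl3)

variable {n t : ℕ}

/-- The local situation above `3`, ramified case. -/
theorem lcR (hX : DM.S_XOm) (hR2 : S_R2) (hD1 : DM.S_D1) (hD2 : S_D2) [Ram3 n t] {P : Ideal ZZ} (hP : Ab3 P)
    {b : Ideal (OO n t)} (hb : G30 b) : Lc P b := by
  have := hP.1.1
  have h2P := Dh.two_not hP
  obtain ⟨hc, hc1, -⟩ := hR2 n t P hP b hb
  obtain ⟨a1, a2, a3, -, a5, -, -⟩ := hD1 n t P hP.1 h2P b hb
  obtain ⟨b1, -, b4, b5, -, -, -⟩ := hD2 n t P hP b hb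
  refine ⟨hP, hb, hX n t b hb, hc, ?_, a1, a2, a3, a5, b4, b5, b1⟩
  have e : 1 - 8 * cO b = 3 * 3 - 8 * (cO b + 1) := by ring
  have h3V : VP P (3 : Om) := by exact_mod_cast DI.VP.nat (P := P) 3
  have h8V : VP P (8 : Om) := by exact_mod_cast DI.VP.nat (P := P) 8
  rw [e]
  exact (DI.MP.mul_left h3V hP.2).sub (DI.MP.mul_left h8V hc1)

/-- `v(b₂) = 1/2`. -/
theorem vb2 (hR2 : S_R2) [Ram3 n t] {P : Ideal ZZ} (hP : Ab3 P) {b : Ideal (OO n t)} (hb : G30 b) :
    1 - 8 * cO b ≠ 0 ∧ vl P 3 (1 - 8 * cO b) = 1 / 2 := by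
  have := hP.1.1
  have hp := pl3 hP
  obtain ⟨-, -, h⟩ := hR2 n t P hP b hb
  have h0 : 1 - 8 * cO b ≠ 0 := by
    intro h1
    have h2 := h.ne_zero
    rw [h1] at h2
    norm_num at h2
  refine ⟨h0, ?_⟩
  have h3v : vl P 3 (3 : Om) = 1 := by
    have := DL.vl_two hp
    exact_mod_cast this
  have h1 := DL.vl_of_up hp h
  rw [DL.vl_div hp (pow_ne_zero 2 h0) three_ne_zero, DL.vl_pow hp h0, h3v] at h1
  push_cast at h1
  linarith

/-! ## Points -/

theorem three_mem [Ram3 n t] : (3 : OO n t) ∈ pp n t := Ideal.subset_span (by simp)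

theorem sD_mem [Ram3 n t] : sD n t ∈ pp n t := Ideal.subset_span (by simp)

theorem pp_pow_mem [Ram3 n t] (j : ℕ) : (3 : OO n t) ^ j ∈ pp n t ^ j := Ideal.pow_mem_pow three_mem j

/-- `3 z` for the ideal `pp ^ 2`. -/
theorem lam_pp2 [Ram3 n t] {b : Ideal (OO n t)} {z : ℂ} (j : ℕ) :
    z ∈ Lam (pp n t ^ (j + 2) * b) ↔ 3 * z ∈ Lam (pp n t ^ j * b) := by
  have e : pp n t ^ (j + 2) * b = sp (3 : OO n t) * (pp n t ^ j * b) := by
    rw [pow_add, sq, pp_sq, mul_assoc, mul_comm (pp n t ^ j), mul_assoc, mul_comm b]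
  rw [e, lam_sp, toC_three]

theorem lam_pow3 [Ram3 n t] {b : Ideal (OO n t)} {z : ℂ} {j : ℕ} (hz : z ∈ Lam (pp n t ^ j * b)) :
    (3 : ℂ) ^ j * z ∈ Lam b := by
  have h := lam_prod.1 hz _ (pp_pow_mem j)
  rwa [toC_pow, toC_three] at h

/-- A point of order `3` with `√-D z` in the lattice has order `pp`. -/
theorem of_sD [Ram3 n t] {b : Ideal (OO n t)} {z : ℂ} (h3 : 3 * z ∈ Lam b) (hs : toC (sD n t) * z ∈ Lam b) :
    z ∈ Lam (pp n t * b) := by
  rw [lam_prod]
  intro v hv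
  obtain ⟨a, c, hac⟩ := Ideal.mem_span_pair.1 hv
  have e : toC v * z = toC a * (3 * z) + toC c * (toC (sD n t) * z) := by
    rw [← hac, toC_add, toC_mul, toC_mul, toC_three]
    ring
  rw [e]
  exact lam_add (lam_mul a h3) (lam_mul c hs)

theorem sD_lam [Ram3 n t] {b : Ideal (OO n t)} {z : ℂ} (h3 : 3 * z ∈ Lam b) :
    toC (sD n t) * z ∈ Lam (pp n t * b) := by
  rw [lam_prod]
  intro v hv
  have h1 : v * sD n t ∈ sp (3 : OO n t) := by
    rw [← pp_sq]
    exact Ideal.mul_mem_mul hv sD_mem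
  obtain ⟨u, hu⟩ := Ideal.mem_span_singleton.1 h1
  have e : toC v * (toC (sD n t) * z) = toC u * (3 * z) := by
    rw [← mul_assoc, ← toC_mul, hu, toC_mul, toC_three]
    ring
  rw [e]
  exact lam_mul u h3

/-- `α = 1 + 20 √-D`. -/
theorem al_cop [Ram3 n t] : Cop ((1 : OO n t) + 20 * sD n t) 30 := by
  obtain ⟨D', hD', -⟩ := D3 (n := n) (t := t)
  have hN : Nm ((1 : OO n t) + 20 * sD n t) = 1 + 400 * (Dk n t : ℤ) := by
    rw [Dk_cast]
    have e20 : (20 : OO n t) = ((20 : ℕ) : OO n t) := by norm_num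
    rw [e20]
    unfold Nm
    rw [QuadraticAlgebra.re_add, QuadraticAlgebra.im_add, re_mul, im_mul, re_nat, im_nat, re_one, im_one]
    simp only [sD]
    push_cast
    ring
  unfold Cop
  rw [hN, hD']
  refine ⟨1, -(40 * (D' : ℤ)), ?_⟩
  push_cast
  ring

section

variable [Ram3 n t] {P : Ideal ZZ} {b : Ideal (OO n t)}

/-- The points of exact order `pp ^ 2`. -/
theorem v_two (h : Lc P b) (hb0 : 1 - 8 * cO b ≠ 0) (hb2 : vl P 3 (1 - 8 * cO b) = 1 / 2) {d : ℂ}
    (h3 : 3 * d ∈ Lam b) (hd : d ∉ Lam (pp n t * b)) : vl P 3 (xO b d) = -(1 / 6) := by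
  have hdl : d ∉ Lam b := fun h1 => hd (lam_mono h1)
  refine (h.rt hb2 hb0 h3 hdl).resolve_right fun hv => ?_
  have hI : IK P b d := h.i3 d 1 (by rwa [pow_one])
  have h20 : (4 : OO n t) ∣ ((1 : OO n t) + 20 * sD n t) - 1 := ⟨5 * sD n t, by ring⟩
  obtain ⟨n1, hv2⟩ := h.mulv h20 al_cop hI hdl
  have e20 : toC ((1 : OO n t) + 20 * sD n t) * d = d + 20 * (toC (sD n t) * d) := by
    have e : toC (20 : OO n t) = 20 := by
      have := toC_nat (n := n) (t := t) 20
      exact_mod_cast this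
    rw [toC_add, toC_one, toC_mul, e]
    ring
  rw [e20] at n1 hv2
  have hs := sD_lam h3
  have h20s : 20 * (toC (sD n t) * d) ∈ Lam (pp n t * b) := by
    have := lam_mul (20 : OO n t) hs
    have e : toC (20 : OO n t) = 20 := by
      have := toC_nat (n := n) (t := t) 20
      exact_mod_cast this
    rwa [e] at this
  have h3s : 3 * (toC (sD n t) * d) ∈ Lam b := by
    have := lam_mul (sD n t) h3
    have e : 3 * (toC (sD n t) * d) = toC (sD n t) * (3 * d) := by ring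
    rwa [e]
  have a2 : 3 * (d + 20 * (toC (sD n t) * d)) ∈ Lam b := by
    have e : 3 * (d + 20 * (toC (sD n t) * d)) = 3 * d + toC (20 : OO n t) * (3 * (toC (sD n t) * d)) := by
      have e : toC (20 : OO n t) = 20 := by
        have := toC_nat (n := n) (t := t) 20
        exact_mod_cast this
      rw [e]
      ring
    rw [e]
    exact lam_add h3 (lam_mul _ h3s)
  refine h.no2 hb2 hb0 h3 a2 hdl n1 ?_ ?_ hv (hv2.trans hv)
  · intro h5
    apply hd
    have h6 : 2 * d ∈ Lam (pp n t * b) := by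
      have e : 2 * d = (d + (d + 20 * (toC (sD n t) * d))) - 20 * (toC (sD n t) * d) := by ring
      rw [e]
      exact lam_sub (lam_mono h5) h20s
    have e : d = 3 * d - 2 * d := by ring
    rw [e]
    exact lam_sub (lam_mono h3) h6
  · intro h5
    apply hd
    refine of_sD h3 ?_
    have h6 : 20 * (toC (sD n t) * d) ∈ Lam b := by
      have e : 20 * (toC (sD n t) * d) = -(d - (d + 20 * (toC (sD n t) * d))) := by ring
      rw [e]
      exact lam_neg h5
    have e : toC (sD n t) * d = toC (7 : OO n t) * (3 * (toC (sD n t) * d)) - 20 * (toC (sD n t) * d) := by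
      have e7 : toC (7 : OO n t) = 7 := by
        have := toC_nat (n := n) (t := t) 7
        exact_mod_cast this
      rw [e7]
      ring
    rw [e]
    exact lam_sub (lam_mul _ h3s) h6

/-- The points of exact order `pp`. -/
theorem v_one (h : Lc P b) (hb0 : 1 - 8 * cO b ≠ 0) (hb2 : vl P 3 (1 - 8 * cO b) = 1 / 2) {T : ℂ}
    (hT : T ∈ Lam (pp n t * b)) (hTl : T ∉ Lam b) : vl P 3 (xO b T) = -(1 / 2) := by
  have h3T : 3 * T ∈ Lam b := by
    have := lam_prod.1 hT _ three_mem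
    rwa [toC_three] at this
  refine (h.rt hb2 hb0 h3T hTl).resolve_left fun hv => ?_
  have hpb : pp n t * b ≠ ⊥ := mul_ne_zero pp_ne h.g.ne
  obtain ⟨d, hd, hd'⟩ := (aL3 n t (pp n t) (pp n t * b) pp_ne hpb).1
  have hdn : d ∉ Lam (pp n t * b) := by
    have := hd' ⊤ (lt_of_le_of_ne le_top (pp_prime (n := n) (t := t)).ne_top)
    rwa [Ideal.top_mul] at this
  have h3d : 3 * d ∈ Lam b := by
    rw [← mul_assoc, pp_sq, lam_sp, toC_three] at hd
    exact hd
  have hdl : d ∉ Lam b := fun h1 => hdn (lam_mono h1)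
  have p1 : d + T ∉ Lam (pp n t * b) := by
    intro h1
    apply hdn
    have e : d = (d + T) - T := by ring
    rw [e]
    exact lam_sub h1 hT
  have p2 : d - T ∉ Lam (pp n t * b) := by
    intro h1
    apply hdn
    have e : d = (d - T) + T := by ring
    rw [e]
    exact lam_add h1 hT
  have q1 : 3 * (d + T) ∈ Lam b := by
    rw [mul_add]
    exact lam_add h3d h3T
  have q2 : 3 * (d - T) ∈ Lam b := by
    rw [mul_sub]
    exact lam_sub h3d h3T
  exact h.no6 hb2 hb0 h3d h3T hdl hTl (fun h1 => p1 (lam_mono h1)) (fun h1 => p2 (lam_mono h1))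
    (v_two h hb0 hb2 h3d hdn) hv (v_two h hb0 hb2 q1 p1) (v_two h hb0 hb2 q2 p2)

/-- The points of exact order `pp ^ (j + 1)`. -/
theorem v_ord (h : Lc P b) (hb0 : 1 - 8 * cO b ≠ 0) (hb2 : vl P 3 (1 - 8 * cO b) = 1 / 2) : ∀ (j : ℕ) (d : ℂ),
    d ∈ Lam (pp n t ^ (j + 1) * b) → d ∉ Lam (pp n t ^ j * b) → vl P 3 (xO b d) = -(1 / (2 * 3 ^ j)) := by
  have := h.ab.1.1
  have hp := pl3 h.ab
  intro j
  induction j using Nat.strong_induction_on with
  | _ j ih =>
    match j, ih with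
    | 0, _ =>
      intro d h1 h2
      rw [zero_add, pow_one] at h1
      rw [pow_zero, one_mul] at h2
      rw [v_one h hb0 hb2 h1 h2]
      norm_num
    | 1, _ =>
      intro d h1 h2
      rw [pow_one] at h2
      have h3 := (lam_pp2 (b := b) 0).1 h1
      rw [pow_zero, one_mul] at h3
      rw [v_two h hb0 hb2 h3 h2]
      norm_num
    | j + 2, ih =>
      intro d h1 h2
      have h3 : 3 * d ∈ Lam (pp n t ^ (j + 1) * b) := (lam_pp2 (b := b) (j + 1)).1 h1
      have h4 : 3 * d ∉ Lam (pp n t ^ j * b) := fun h5 => h2 ((lam_pp2 (b := b) j).2 h5)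
      have h5 := ih j (by omega) (3 * d) h3 h4
      have h6 : 3 * d ∉ Lam b := fun h7 => h4 (lam_mono h7)
      have hI : IK P b d := h.i3 d _ (lam_pow3 h1)
      have hpos : (1 : ℚ) ≤ 3 ^ j := one_le_pow₀ (by norm_num)
      have h7 := (h.step (θ := 1 / 6) (β := 1 / 2) (by norm_num) (by norm_num) (by norm_num)
        (Or.inr hb2.ge) hI h6 (by
          rw [h5]
          have h8 : 1 / (2 * (3 : ℚ) ^ j) ≤ 1 / 2 := by
            rw [div_le_div_iff₀ (by positivity) (by norm_num)]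
            linarith
          linarith)).2
      rw [h5] at h7
      have h8 : vl P 3 (xO b d) = -(1 / (2 * 3 ^ j)) / 9 := by linarith
      rw [h8, pow_add]
      field_simp
      norm_num

end

/-- The point `T3`: `v(X) = -1/2`, `v(W) = -3/4`. -/
theorem T3_val (hX : DM.S_XOm) (hR2 : S_R2) (hD1 : DM.S_D1) (hD2 : S_D2) [Ram3 n t] {P : Ideal ZZ} (hP : Ab3 P)
    {b : Ideal (OO n t)} (hb : G30 b) : xO b (T3 n t) ≠ 0 ∧ vl P 3 (xO b (T3 n t)) = -(1 / 2) ∧
      vO b (T3 n t) ≠ 0 ∧ vl P 3 (vO b (T3 n t)) = -(3 / 4) ∧ IK P b (T3 n t) := by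
  have := hP.1.1
  have hp := pl3 hP
  have h := lcR hX hR2 hD1 hD2 hP hb
  obtain ⟨hb0, hb2⟩ := vb2 hR2 hP hb
  obtain ⟨m1, m2, -⟩ := zL6 n t b hb.ne (Dh.p3 hb.cop)
  have h3T : 3 * T3 n t ∈ Lam b := by
    have := lam_prod.1 m1 _ three_mem
    rwa [toC_three] at this
  have hI : IK P b (T3 n t) := h.i3 _ 1 (by rwa [pow_one])
  have hv := v_one h hb0 hb2 m1 m2
  have hx0 := (h.ext hI m2).1
  have hw := h.w2 hI m2
  have hv0 : vO b (T3 n t) ≠ 0 := by
    intro h1
    have h2 := hw.ne_zero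
    rw [h1] at h2
    norm_num at h2
  refine ⟨hx0, hv, hv0, ?_, hI⟩
  have h1 := DL.vl_of_up hp hw
  rw [DL.vl_div hp (pow_ne_zero 2 hv0) (pow_ne_zero 3 hx0), DL.vl_pow hp hv0, DL.vl_pow hp hx0, hv] at h1
  push_cast at h1
  linarith

/-- **The valuations at the points of order `pp ^ j`.** -/
theorem sD10 (hX : DM.S_XOm) (hR2 : S_R2) (hD1 : DM.S_D1) (hD2 : S_D2) : S_D10 := by
  intro n t _ P hP b hb
  have := hP.1.1
  have hp := pl3 hP
  have h := lcR hX hR2 hD1 hD2 hP hb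
  obtain ⟨hb0, hb2⟩ := vb2 hR2 hP hb
  have h3v : vl P 3 (3 : Om) = 1 := by
    have := DL.vl_two hp
    exact_mod_cast this
  obtain ⟨x0, xv, w0, wv, -⟩ := T3_val hX hR2 hD1 hD2 hP hb
  refine ⟨?_, ?_, ?_⟩
  · intro j z d hz hz2 hd hd'
    have hdl : d ∉ Lam b := fun h1 => hd' (lam_mono h1)
    have h3d := lam_pow3 hd
    obtain ⟨k, k1, k2, k3, k4⟩ := h.difv hz hz2 (M := 3 ^ (j + 1)) (Odd.pow (by decide))
      (by push_cast; exact h3d) (h.i3 d _ h3d) hdl
    have h5 : (k : ℂ) * d ∈ Lam (pp n t ^ (j + 1) * b) := lam_nat k hd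
    have h6 : (k : ℂ) * d ∉ Lam (pp n t ^ j * b) := by
      intro h7
      apply hd'
      have h8 := lam_mul (2 : OO n t) h7
      rw [toC_two] at h8
      have e : d = 2 * (k * d) - (2 * (k * d) - d) := by ring
      rw [e]
      exact lam_sub h8 (lam_mono k1)
    rw [v_ord h hb0 hb2 j _ h5 h6] at k4
    refine K3.up_pow hP k3 ?_
    rw [k4]
    push_cast
    have hpos : (3 : ℚ) ^ j ≠ 0 := by positivity
    field_simp
    norm_num
  · rw [← DL.vl_zero_iff hp (mul_ne_zero three_ne_zero (pow_ne_zero 2 x0)),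
      DL.vl_mul hp three_ne_zero (pow_ne_zero 2 x0), DL.vl_pow hp x0, xv, h3v]
    norm_num
  · have e : (27 : Om) = 3 ^ 3 := by norm_num
    rw [e, ← DL.vl_zero_iff hp (mul_ne_zero (pow_ne_zero 3 three_ne_zero) (pow_ne_zero 4 w0)),
      DL.vl_mul hp (pow_ne_zero 3 three_ne_zero) (pow_ne_zero 4 w0), DL.vl_pow hp w0,
      DL.vl_pow hp three_ne_zero, wv, h3v]
    norm_num

end Pool.Agent.DM.DU
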