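import Pool.Agent.Lib.DU.Iface
import Pool.Agent.Lib.DM.D.D9

/-!
# Theorem DU (`p = 3` ramified), part D: the function `g` at the primes above `3` (module `D9`; helper58)
-/

set_option autoImplicit false

open scoped Pointwise nonZeroDivisors

noncomputable section

namespace Pool.Agent.DM.DU

open Pool.Agent.MuZ Pool.Agent.FW Pool.Agent.DN NumberField IsDedekindDomain
open Pool.Agent.DI (io ofC io_inj exists_io io_ofC ofC_io VP MP UP TP ex)

/-- **The function `g` at the primes above `3`** (ramified case). -/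
theorem sD9 (hX : DM.S_XOm) (hD1 : DM.S_D1) (hD2 : S_D2) : S_D9 := by
  intro n t _ P hP m b hm hb hm30 z hz hzq
  obtain ⟨-, -, h4, -, h6, h7, -⟩ := hD2 n t P hP b hb
  exact Dh.d9_core hX hD1 hP (Dh.two_not hP) hm hb hm30 h4 h6 h7 hz hzq

end Pool.Agent.DM.DU
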