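import Pool.Agent.Lib.DM.D.R2
import Pool.Agent.Lib.DU.O.L6
import Pool.Agent.Lib.DR.E.Half

/-!
# Theorem DU: `S_R2`, `S_D2` (helper46)

`3` is ramified. `half3`: the elements of the maximal ideal fixed by the inertia elements of `Gal(Om/K)` have valuation at
least `1/2`. `b₂ = 1 - 8 c` and `X(T3)` are such elements (up to a power of `√-D`).
-/

set_option autoImplicit false

open scoped Pointwise nonZeroDivisors

noncomputable section

namespace Pool.Agent.DM.DU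

open Pool.Agent.MuZ Pool.Agent.FW NumberField IsDedekindDomain
open Pool.Agent.DI (io ofC io_inj exists_io io_ofC ofC_io VP MP UP TP ex)
open Pool.Agent.DN
open Pool.Agent.DR (Fx)

section

variable {n t : ℕ} [SqN n t]

/-- An element outside of `Gal(Om/K)` maps `wO` to its conjugate. -/
theorem not_GKg {τ : Gal(Om/ℚ)} (h : τ ∉ GK n t) : τ (wO n t) = t - wO n t := by
  have hsq := wO_sq (n := n) (t := t)
  have h4 : (τ (wO n t) - wO n t) * (τ (wO n t) - (t - wO n t)) = 0 := by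
    have h4 := congrArg τ hsq
    simp only [map_sub, map_mul, map_pow, map_natCast] at h4
    linear_combination h4 - hsq
  rcases mul_eq_zero.1 h4 with h5 | h5
  · exact absurd (mem_GK_iff.2 (sub_eq_zero.1 h5)) h
  · exact sub_eq_zero.1 h5

/-- **Half integral valuations.** -/
theorem half_gen {P : Ideal ZZ} {p : ℕ} (hP : Npr P) (hp : p.Prime) (hPp : MP P (p : Om))
    (hs : ∃ σ ∈ P.inertia Gal(Om/ℚ), σ ∉ GK n t) {x : Om} (hf : Fx n t P x) (hx : MP P x) :
    VP P (x ^ 2 / p) := by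
  have := hP.1
  have hp0 : (p : Om) ≠ 0 := by exact_mod_cast hp.ne_zero
  by_cases hx0 : x = 0
  · rw [hx0, zero_pow two_ne_zero, zero_div]
    exact DI.VP.zero (P := P)
  obtain ⟨σ, hσ, hσG⟩ := hs
  have hσw := not_GKg hσG
  have inv_mem' : ∀ τ : Gal(Om/ℚ), τ ∉ GK n t → σ⁻¹ * τ ∈ GK n t := by
    intro τ hτ
    have hτw := not_GKg hτ
    rw [mem_GK_iff, AlgEquiv.mul_apply, hτw, ← hσw]
    exact AlgEquiv.symm_apply_apply σ _
  have mul_mem' : ∀ τ : Gal(Om/ℚ), τ ∉ GK n t → τ * σ ∈ GK n t := by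
    intro τ hτ
    have hτw := not_GKg hτ
    rw [mem_GK_iff, AlgEquiv.mul_apply, hσw, map_sub, map_natCast, hτw]
    ring
  have hσx : σ (σ x) = x := hf (σ * σ) (mul_mem hσ hσ) (mul_mem' σ hσG)
  have hVσ : VP P (σ x) := DI.VP.inertia_vp hσ hx.vp
  have hfix : ∀ τ ∈ P.inertia Gal(Om/ℚ), τ (x * σ x) = x * σ x := by
    intro τ hτ
    by_cases hG : τ ∈ GK n t
    · have h1 : σ⁻¹ * τ * σ ∈ GK n t := by
        have h0 : τ * σ ∉ GK n t := by
          intro h0
          apply hσG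
          have h2 := mul_mem (inv_mem hG) h0
          rwa [inv_mul_cancel_left] at h2
        have := inv_mem' _ h0
        rwa [← mul_assoc] at this
      have h2 := hf (σ⁻¹ * τ * σ) (mul_mem (mul_mem (inv_mem hσ) hτ) hσ) h1
      have h3 : τ (σ x) = σ x := by
        have h4 := congrArg σ h2
        rw [AlgEquiv.mul_apply, AlgEquiv.mul_apply] at h4
        rwa [show σ (σ⁻¹ (τ (σ x))) = τ (σ x) from AlgEquiv.apply_symm_apply σ _] at h4
      rw [map_mul, hf τ hτ hG, h3]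
    · have h2 : τ x = σ x := by
        have h4 := congrArg σ (hf (σ⁻¹ * τ) (mul_mem (inv_mem hσ) hτ) (inv_mem' τ hG))
        rw [AlgEquiv.mul_apply] at h4
        rwa [show σ (σ⁻¹ (τ x)) = τ x from AlgEquiv.apply_symm_apply σ _] at h4
      have h4 : τ (σ x) = x := hf (τ * σ) (mul_mem hτ hσ) (mul_mem' τ hG)
      rw [map_mul, h2, h4, mul_comm]
  obtain ⟨y, hy, hxy⟩ := aUnI P p hP hp hPp (x * σ x) hfix (DI.MP.mul_right hx hVσ)
  have hσx0 : σ x ≠ 0 := fun h => hx0 (by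
    rw [← hσx, h, map_zero])
  have hu : σ (x / σ x) = (x / σ x)⁻¹ := by
    rw [map_div₀, hσx, inv_div]
  have hV : VP P (x / σ x) := by
    rcases DI.VP.or_vp_inv (P := P) (x / σ x) with h | h
    · exact h
    · have h3 := DI.VP.inertia_vp hσ h
      rwa [map_inv₀, hu, inv_inv] at h3
  have e : x ^ 2 / p = y * (x / σ x) := by
    have h3 : y = x * σ x / p := by
      rw [hxy]
      field_simp
    rw [h3]
    field_simp
  rw [e]
  exact hy.mul hV

end

section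

variable {n t : ℕ} [Ram3 n t] {P : Ideal ZZ}

theorem MP3 (hP : Ab3 P) : MP P ((3 : ℕ) : Om) := by
  rw [Nat.cast_ofNat]
  exact hP.2

/-- The square of `√-D` as an algebraic number. -/
theorem toO_sD_sq : (toO (sD n t)) ^ 2 = -(Dk n t : Om) := by
  have h := congrArg toO (sD_sq (n := n) (t := t))
  rw [toO_mul, toO_neg, toO_nat] at h
  rw [pow_two]
  exact h

theorem MP_sD (hP : Ab3 P) : MP P (toO (sD n t)) := by
  have := hP.1.1
  obtain ⟨D', hD, -⟩ := D3 (n := n) (t := t)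
  refine DI.MP.of_pow (n := 2) ?_
  rw [toO_sD_sq, hD]
  push_cast
  exact (DI.MP.mul_right hP.2 (DI.VP.nat D')).neg

theorem Fx_sD : Fx n t P (toO (sD n t)) := by
  intro τ _ hG
  have hw := mem_GK_iff.1 hG
  have e : toO (sD n t) = 2 * wO n t - t := by
    apply io_inj
    rw [io_toO, toC_sD, map_sub, map_mul, map_ofNat, map_natCast, io_wO]
  rw [e, map_sub, map_mul, map_ofNat, map_natCast, hw]

/-- There is an inertia element outside of `Gal(Om/K)`. -/
theorem exists_sig3 (hP : Ab3 P) : ∃ σ ∈ P.inertia Gal(Om/ℚ), σ ∉ GK n t := by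
  have := hP.1.1
  by_contra hcon
  push Not at hcon
  obtain ⟨y, hy, hxy⟩ := aUnI P 3 hP.1 Nat.prime_three (MP3 hP) (toO (sD n t))
    (fun τ hτ => Fx_sD (P := P) τ hτ (hcon τ hτ)) (MP_sD hP)
  obtain ⟨D', hD, hc⟩ := D3 (n := n) (t := t)
  have h2 := toO_sD_sq (n := n) (t := t)
  rw [hxy, hD] at h2
  push_cast at h2
  have h3 : (D' : Om) = -(3 * y ^ 2) := by
    have h4 : (3 : Om) * D' = 3 * (-(3 * y ^ 2)) := by linear_combination h2
    exact mul_left_cancel₀ three_ne_zero h4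
  refine Ab3.not_nat hP hc ?_
  rw [h3]
  exact (DI.MP.mul_right hP.2 (hy.pow 2)).neg

theorem half3 (hP : Ab3 P) {x : Om} (hf : Fx n t P x) (hx : MP P x) : VP P (x ^ 2 / 3) := by
  have := half_gen (n := n) (t := t) hP.1 Nat.prime_three (MP3 hP) (exists_sig3 hP) hf hx
  rwa [Nat.cast_ofNat] at this

theorem Fx_c (hP : Ab3 P) {b : Ideal (OO n t)} (hb : G30 b) : Fx n t P (cO b) := by
  intro τ hτ hG
  obtain ⟨y, -, -, -, hf⟩ := ine_fun hP hτ hG
  exact (hf b hb).1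

theorem three_T3 {b : Ideal (OO n t)} : 3 * T3 n t ∈ Lam b := by
  have e : 3 * T3 n t = toC (sD n t) := by
    unfold T3
    ring
  rw [e]
  have h5 : toC (sD n t) ∈ Lam (⊤ : Ideal (OO n t)) := lam_top.2 ⟨_, rfl⟩
  exact lam_anti le_top h5

/-- `X(T3)` is fixed by the inertia elements of `Gal(Om/K)`. -/
theorem Fx_T3 (hP : Ab3 P) {b : Ideal (OO n t)} (hb : G30 b) : Fx n t P (xO b (T3 n t)) := by
  intro τ hτ hG
  obtain ⟨y, -, hcy, -, hf⟩ := ine_fun hP hτ hG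
  have h1 := ((hf b hb).2 (T3 n t) (by
    have e : (60 : ℂ) * T3 n t = toC ((20 : ℕ) : OO n t) * (3 * T3 n t) := by
      rw [toC_nat]
      push_cast
      ring
    rw [e]
    exact lam_mul _ three_T3)).1
  rw [h1]
  obtain ⟨-, -, -, -, l5, -⟩ := zL6 n t b hb.ne (Eb.pri_dvd hb.cop (by norm_num))
  have h2 := l5 y
  have h3 : zs y ≠ 0 := by
    intro h0
    exact (cop3_pp y).1 (cop_dvd hcy (by norm_num)) ((zs_zero y).1 h0)
  refine (zXOm n t b hb).cng' _ _ ?_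
  rcases (zs_ph y).2 with h | h | h
  · left
    rw [h] at h2
    push_cast at h2
    rwa [one_mul] at h2
  · right
    rw [h] at h2
    push_cast at h2
    rwa [neg_one_mul, sub_neg_eq_add] at h2
  · exact absurd h h3

end

/-- The algebra: if the valuation of `b₂` is at least `3/4` then `3 x⁴` is a unit for the points of order three. -/
theorem key3 {F Γ : Type} [Field F] [LinearOrderedCommGroupWithZero Γ] {v : Valuation F Γ} (hv : v 3 < 1)
    (h30 : (3 : F) ≠ 0) {B c x : F} (hc : v c = 1) (hB : v (B ^ 4 / 27) ≤ 1)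
    (hx : 3 * x ^ 4 + B * x ^ 3 + 3 * (2 * c ^ 2) * x ^ 2 + 3 * 0 * x + -c ^ 4 = 0) : v (3 * x ^ 4) = 1 := by
  have v3 : v (3 : F) ≠ 0 := (v.ne_zero_iff).2 h30
  have hc2 : v (2 * c ^ 2) ≤ 1 := vmul (vof v 2) (vpow hc.le 2)
  have hc4 : v (c ^ 4) = 1 := by rw [v.map_pow, hc, one_pow]
  have h27 : (27 : F) ≠ 0 := by
    have : (27 : F) = 3 ^ 3 := by norm_num
    rw [this]
    exact pow_ne_zero _ h30
  have e1 : (B * x ^ 3) ^ 4 = B ^ 4 / 27 * (3 * x ^ 4) ^ 3 := by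
    field_simp
    ring
  have e2 : v (B * x ^ 3) ^ 4 ≤ v (3 * x ^ 4) ^ 3 := by
    rw [← v.map_pow, e1, v.map_mul, v.map_pow]
    calc v (B ^ 4 / 27) * v (3 * x ^ 4) ^ 3 ≤ 1 * v (3 * x ^ 4) ^ 3 := by gcongr
      _ = _ := one_mul _
  have e3 : v (3 * x ^ 2) ^ 2 = v 3 * v (3 * x ^ 4) := by
    rw [← v.map_pow, ← v.map_mul]
    congr 1
    ring
  have e4 : v (3 * (2 * c ^ 2) * x ^ 2) ≤ v (3 * x ^ 2) := by
    have : 3 * (2 * c ^ 2) * x ^ 2 = (2 * c ^ 2) * (3 * x ^ 2) := by ring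
    rw [this, v.map_mul]
    calc v (2 * c ^ 2) * v (3 * x ^ 2) ≤ 1 * v (3 * x ^ 2) := by gcongr
      _ = _ := one_mul _
  rcases lt_trichotomy (v (3 * x ^ 4)) 1 with hlt | heq | hgt
  · exfalso
    have a1 : v (B * x ^ 3) < 1 := by
      have : v (B * x ^ 3) ^ 4 < 1 := lt_of_le_of_lt e2 (pow_lt_one' hlt three_ne_zero)
      exact not_le.1 fun h' => absurd this (not_lt.2 (one_le_pow₀ h'))
    have a2 : v (3 * x ^ 2) < 1 := by
      have : v (3 * x ^ 2) ^ 2 < 1 := by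
        rw [e3]
        exact mul_lt_one_of_nonneg_of_lt_one_left zero_le hv hlt.le
      exact not_le.1 fun h' => absurd this (not_lt.2 (one_le_pow₀ h'))
    have a3 : c ^ 4 = 3 * x ^ 4 + B * x ^ 3 + 3 * (2 * c ^ 2) * x ^ 2 := by linear_combination -hx
    have : v (c ^ 4) < 1 := by
      rw [a3]
      exact madd (madd hlt a1) (lt_of_le_of_lt e4 a2)
    rw [hc4] at this
    exact lt_irrefl _ this
  · exact heq
  · exfalso
    have hpos : (0 : Γ) < v (3 * x ^ 4) := lt_trans zero_lt_one hgt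
    have a1 : v (B * x ^ 3) < v (3 * x ^ 4) := by
      by_contra h'
      have h5 := not_lt.1 h'
      have : v (3 * x ^ 4) ^ 4 ≤ v (3 * x ^ 4) ^ 3 := (pow_le_pow_left' h5 4).trans e2
      have h6 : v (3 * x ^ 4) ^ 3 < v (3 * x ^ 4) ^ 4 := pow_lt_pow_right₀ hgt (by norm_num)
      exact absurd this (not_le.2 h6)
    have a2 : v (3 * x ^ 2) < v (3 * x ^ 4) := by
      by_contra h'
      have h5 := not_lt.1 h'
      have h6 : v (3 * x ^ 4) ^ 2 ≤ v 3 * v (3 * x ^ 4) := by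
        rw [← e3]
        exact pow_le_pow_left' h5 2
      have h7 : v 3 * v (3 * x ^ 4) < 1 * v (3 * x ^ 4) := mul_lt_mul_of_pos_right hv hpos
      have h8 : v (3 * x ^ 4) ≤ v (3 * x ^ 4) ^ 2 := le_self_pow₀ hgt.le two_ne_zero
      rw [one_mul] at h7
      exact absurd (h8.trans h6) (not_le.2 h7)
    have a3 : 3 * x ^ 4 = c ^ 4 - B * x ^ 3 - 3 * (2 * c ^ 2) * x ^ 2 := by linear_combination hx
    have : v (3 * x ^ 4) < v (3 * x ^ 4) := by
      nth_rewrite 1 [a3]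
      exact v.map_sub_lt (v.map_sub_lt (by rw [hc4]; exact hgt) a1) (lt_of_le_of_lt e4 a2)
    exact lt_irrefl _ this

/-- **`S_R2`.** -/
theorem zR2 : S_R2 := by
  intro n t _ P hP b hb
  have := hP.1.1
  have hn2 : ¬ MP P 2 := Ab3.not_two hP
  have hc := (DM.zR2.1 n t P hP.1 hn2 b hb).1
  have hc1 := cR2n zR1 hP hb
  have v3 : VP P (3 : Om) := by exact_mod_cast DI.VP.nat (P := P) 3
  have v8 : VP P (8 : Om) := by exact_mod_cast DI.VP.nat (P := P) 8
  have hM : MP P (1 - 8 * cO b) := by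
    have e : 1 - 8 * cO b = 3 * 3 - 8 * (cO b + 1) := by ring
    rw [e]
    exact (DI.MP.mul_right hP.2 v3).sub (DI.MP.mul_left v8 hc1)
  have hF : Fx n t P (1 - 8 * cO b) := by
    intro τ h1 h2
    rw [map_sub, map_mul, map_one, map_ofNat, Fx_c hP hb τ h1 h2]
  have hV := half3 (n := n) (t := t) hP hF hM
  refine ⟨hc, hc1, hV, fun hM2 => ?_⟩
  have hF2 : Fx n t P ((1 - 8 * cO b) ^ 2 / 3) := (hF.pow 2).div (by exact_mod_cast DR.Fx.nat 3)
  have hV2 := half3 (n := n) (t := t) hP hF2 hM2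
  obtain ⟨V, hVQ⟩ := exists_VQ hP.1
  obtain ⟨h3, h2⟩ := VQ3 hP hVQ
  obtain ⟨hg, -, vc, vb2, hK, hd⟩ := nsp_good hP hVQ hb
  have hb3 : PrI b 3 := Eb.pri_dvd hb.cop (by norm_num)
  obtain ⟨-, hT, -⟩ := zL6 n t b hb.ne hb3
  have htor : Tor n t (T3 n t) := (tor_iff hb.ne).2 ⟨3, by norm_num, by exact_mod_cast three_T3⟩
  have ps := hK.psi3_zero hT (by
    have e : T3 n t + T3 n t + T3 n t = 3 * T3 n t := by ring
    rw [e]
    exact three_T3)
  rw [← io_xO zR1 hb htor] at ps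
  have hB : V.valuation ((1 - 8 * cC b) ^ 4 / 27) ≤ 1 := by
    have h5 := (hVQ.le _).2 hV2
    have e : ((1 - 8 * cO b) ^ 2 / 3) ^ 2 / 3 = (1 - 8 * cO b) ^ 4 / 27 := by ring
    rw [e, map_div₀, map_pow, map_sub, map_mul, map_one, map_ofNat, map_ofNat, ((zR1 n t).1 b hb).1] at h5
    exact h5
  have hU := key3 h3 three_ne_zero vc hB ps
  set x := xO b (T3 n t) with hx
  have hU3 : UP P (3 * x ^ 4) := (hVQ.eq _).1 (by
    rw [map_mul, map_pow, map_ofNat]
    exact hU)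
  obtain ⟨D', hD, hD3⟩ := D3 (n := n) (t := t)
  have hsq := toO_sD_sq (n := n) (t := t)
  rw [hD] at hsq
  push_cast at hsq
  have hy : MP P (toO (sD n t) * x) := by
    refine DI.MP.of_pow (n := 4) ?_
    have e : (toO (sD n t) * x) ^ 4 = 3 * ((D' : Om) ^ 2 * (3 * x ^ 4)) := by
      have : (toO (sD n t) * x) ^ 4 = ((toO (sD n t)) ^ 2) ^ 2 * x ^ 4 := by ring
      rw [this, hsq]
      ring
    rw [e]
    exact DI.MP.mul_right hP.2 (((DI.VP.nat D').pow 2).mul hU3.1)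
  have hy2 := half3 (n := n) (t := t) hP (Fx_sD.mul (Fx_T3 hP hb)) hy
  have e5 : (toO (sD n t) * x) ^ 2 / 3 = -((D' : Om) * x ^ 2) := by
    rw [mul_pow, hsq]
    ring
  rw [← hx, e5] at hy2
  have hDu : UP P (D' : Om) := ⟨DI.VP.nat D', Ab3.not_nat hP hD3⟩
  have hx2 : VP P (x ^ 2) := by
    have h6 := hy2.neg
    rw [neg_neg] at h6
    have hD0 : (D' : Om) ≠ 0 := by
      have h7 : D' ≠ 0 := by
        rintro rfl
        norm_num at hD3
      exact_mod_cast h7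
    have e6 : x ^ 2 = (D' : Om)⁻¹ * ((D' : Om) * x ^ 2) := by field_simp
    rw [e6]
    exact hDu.inv.1.mul h6
  apply hU3.2
  have e7 : 3 * x ^ 4 = 3 * (x ^ 2) ^ 2 := by ring
  rw [e7]
  exact DI.MP.mul_right hP.2 (hx2.pow 2)

/-- **`S_D2`.** -/
theorem zD2 : S_D2 := by
  intro n t _ P hP b hb
  obtain ⟨h1, h2, -, h4⟩ := zD2n n t P hP b hb
  exact ⟨h1, h2, h4⟩

end Pool.Agent.DM.DU
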