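import Pool.Agent.Lib.DM.D.D10

/-!
# Theorem DU (`p = 3` ramified), part D: the points of order dividing `3` (helper58)

`Lc.mulv`: `v(X(α z)) = v(X(z))` (`α = 1` modulo `4`, prime to `30`; `z` in the kernel). `v(b₂) = 1/2`: `X(d)` has the valuation `-1/6`
or `-1/2` at the points of order `3` (`Lc.rt`); not two with `-1/2` (`Lc.no2`); not all with `-1/6` (`Lc.no6`).
-/

set_option autoImplicit false

open scoped Pointwise nonZeroDivisors

noncomputable section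

namespace Pool.Agent.DM

open Pool.Agent.MuZ Pool.Agent.FW Pool.Agent.DN NumberField IsDedekindDomain
open Pool.Agent.DI (io ofC io_inj exists_io io_ofC ofC_io VP MP UP TP ex)
open Pool.Agent.DL (vl GE Pl)

namespace K3

variable {n t : ℕ}

section

variable [SqN n t] {P : Ideal ZZ} {b : Ideal (OO n t)}

/-- Elements prime to `3` are units. -/
theorem up_cop (hP : Ab3 P) {α : OO n t} (hα : Cop α 3) : UP P (toO α) := by
  have := hP.1.1
  refine ⟨toO_VP α, fun h => ?_⟩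
  obtain ⟨a, c, hac⟩ := hα
  apply DI.MP.one_not (P := P)
  have e1 : toO α * toO (cjO α) = ((Nm α : ℤ) : Om) := by
    rw [← toO_mul, mul_cjO, toO_int]
  have e : (1 : Om) = a * (toO α * toO (cjO α)) + c * 3 := by
    rw [e1]
    have := congrArg (fun x : ℤ => (x : Om)) hac
    push_cast at this
    exact this.symm
  rw [e]
  exact (DI.MP.mul_left (DI.VP.int a) (DI.MP.mul_right h (toO_VP _))).add (DI.MP.mul_left (DI.VP.int c) hP.2)

/-- **Multiplication by `α`** preserves the valuation in the kernel of reduction. -/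
theorem Lc.mulv (h : Lc P b) {α : OO n t} (h4 : (4 : OO n t) ∣ α - 1) (hα : Cop α 30) {z : ℂ}
    (hz : IK P b z) (hl : z ∉ Lam b) :
    toC α * z ∉ Lam b ∧ vl P 3 (xO b (toC α * z)) = vl P 3 (xO b z) := by
  classical
  have := h.ab.1.1
  have hp := pl3 h.ab
  have hα0 : α ≠ 0 := by
    rintro rfl
    unfold Cop at hα
    rw [Nm_zero] at hα
    have := (isCoprime_zero_left.1 hα)
    rw [Int.isUnit_iff] at this
    norm_num at this
  have hα3 : Cop α 3 := cop_dvd hα ⟨10, rfl⟩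
  have hU := up_cop h.ab hα3
  have hP30 : PrI (sp α) 30 := ((aO6 n t).2.2.2.1 30 α (by norm_num)).2 hα
  have hP3 : PrI (sp α) 3 := Dh.p3 hP30
  have hsa : sp α ≠ ⊥ := fun h1 => hα0 (Ideal.span_singleton_eq_bot.1 h1)
  have hg' : G30 (sp α * b) := Dh.g30_mul hsa hP30 h.g
  have n1 : toC α * z ∉ Lam b := by
    intro h1
    apply hl
    have h2 := h.iqp z hz α 1 hU.2 (by rwa [mul_one])
    rwa [toC_one, one_mul] at h2
  refine ⟨n1, ?_⟩
  obtain ⟨R, hR, -⟩ := (aL3 n t (sp α) b hsa h.g.ne).2.2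
  have thalf : Tor n t (1 / 2) := by
    have := tor_div (n := n) (t := t) (N := 2) (by norm_num) 1
    rwa [toC_one] at this
  have nh : (1 / 2 : ℂ) ∉ Lam (sp α * b) := by
    intro h1
    have h2 := (aL6.1 n t (sp α * b) 2 hg'.ne (by norm_num) (Dh.p2 hg'.cop) 1).1 (by
      rw [toC_one]
      exact_mod_cast h1)
    have h3 := (nat_dvd_iff 2 (1 : OO n t)).1 h2
    rw [re_one] at h3
    norm_num at h3
  have hz' : z ∉ Lam (sp α * b) := by rwa [lam_sp]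
  have hs := ((h.X.sum (sp α) hsa hP30 R hR).1 z (1 / 2) hz.1 thalf hz' nh)
  obtain ⟨-, hr, hxx⟩ := h.X.hom α hα0 h4 hα
  have hone : (1 : ℂ) ∈ Lam b := by
    have h5 : toC (1 : OO n t) ∈ Lam (⊤ : Ideal (OO n t)) := lam_top.2 ⟨_, rfl⟩
    rw [toC_one] at h5
    exact lam_anti le_top h5
  -- the value at `1/2`
  have hX2 : VP P (xO (sp α * b) (1 / 2)) := by
    rw [(hxx (1 / 2)).1]
    refine (h.ivp _ (tor_mul α thalf) fun hI => ?_).1
    have h5 := h.iqp _ hI 2 1 (by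
      have e : toO (2 : OO n t) = 2 := by
        have := toO_nat (n := n) (t := t) 2
        exact_mod_cast this
      rw [e]
      exact Dh.two_not h.ab) (by
      rw [mul_one, toC_two]
      have e : 2 * (toC α * (1 / 2)) = toC α * 1 := by ring
      rw [e]
      exact lam_mul α hone)
    rw [toC_one, one_mul] at h5
    exact nh (lam_sp.2 h5)
  rw [hr, (hxx z).1] at hs
  -- the sum
  obtain ⟨u0, hu0, hu0'⟩ := hR.ex 0 (lam_zero _)
  have hu0b : u0 ∈ Lam b := by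
    rw [zero_sub] at hu0'
    exact lam_neg_iff.1 hu0'
  have hR3 : ∀ u ∈ R, u ∉ Lam b → ¬ IK P b u := fun u hu hn hI =>
    Dh.not_qp h.ab hP3 (hR.mem u hu) hn (h.iqp u hI)
  have tu : ∀ u ∈ R, Tor n t u := fun u hu => tor_lam hg'.ne (hR.mem u hu)
  have hA : ∀ u ∈ R, VP P (xO b (1 / 2 + u)) := by
    intro u hu
    refine (h.ivp _ (tor_add thalf (tu u hu)) fun hI => ?_).1
    have h2N : (2 * NI (sp α)).Coprime 3 :=
      Nat.Coprime.mul_left (by norm_num) (((aO6 n t).2.2.1 3 (sp α) (by norm_num)).1 hP3)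
    have h5 := h.iqp _ hI ((2 * NI (sp α) : ℕ) : OO n t) 1 (by
      rw [toO_nat]
      exact Dh.nat_up h.ab h2N) (by
      rw [mul_one, toC_nat]
      have e : ((2 * NI (sp α) : ℕ) : ℂ) * (1 / 2 + u) = (NI (sp α) : ℂ) * 1 + 2 * ((NI (sp α) : ℂ) * u) := by
        push_cast
        ring
      rw [e]
      refine lam_add (lam_nat _ hone) ?_
      have := lam_mul (2 : OO n t) (Dh.ni_mul (hR.mem u hu))
      rwa [toC_two] at this)
    rw [toC_one, one_mul] at h5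
    apply nh
    have e : (1 / 2 : ℂ) = (1 / 2 + u) - u := by ring
    rw [e]
    exact lam_sub (lam_mono h5) (hR.mem u hu)
  have hB : ∀ u ∈ R.erase u0, VP P (xO b (z + u)) := by
    intro u hu
    obtain ⟨hne, huR⟩ := Finset.mem_erase.1 hu
    have hub : u ∉ Lam b := fun h5 => hne (hR.uni u huR u0 hu0 (lam_sub h5 hu0b))
    refine (h.ivp _ (tor_add hz.1 (tu u huR)) fun hI => hR3 u huR hub ?_).1
    have h5 := h.iadd _ _ hI (h.neg hz)
    have e : z + u + -z = u := by ring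
    rwa [e] at h5
  have hx0 : xO b (z + u0) = xO b z := (h.X.cng _ _ (by
    have e : z + u0 - z = u0 := by ring
    rwa [e])).1
  rw [Finset.sum_sub_distrib, ← Finset.add_sum_erase R _ hu0, hx0] at hs
  obtain ⟨h0, -, hneg⟩ := h.ext hz hl
  set S1 := ∑ u ∈ R.erase u0, xO b (z + u) with hS1
  set S2 := ∑ u ∈ R, xO b (1 / 2 + u) with hS2
  have hW : VP P (S1 - S2 + toO α ^ 2 * xO (sp α * b) (1 / 2)) :=
    ((DI.VP.sum _ _ hB).sub (DI.VP.sum _ _ hA)).add ((hU.1.pow 2).mul hX2)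
  have he : toO α ^ 2 * xO b (toC α * z) = xO b z + (S1 - S2 + toO α ^ 2 * xO (sp α * b) (1 / 2)) := by
    linear_combination hs
  have hk := DL.vl_add_lt hp h0 (y := S1 - S2 + toO α ^ 2 * xO (sp α * b) (1 / 2)) (by
    by_cases hw0 : S1 - S2 + toO α ^ 2 * xO (sp α * b) (1 / 2) = 0
    · exact Or.inl hw0
    · right
      exact lt_of_lt_of_le hneg ((DL.vl_nonneg hp hw0).2 hW))
  rw [← he] at hk
  have hxa : xO b (toC α * z) ≠ 0 := right_ne_zero_of_mul hk.1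
  rw [← hk.2, DL.vl_mul hp (pow_ne_zero 2 hU.ne_zero) hxa, DL.vl_pow hp hU.ne_zero, DL.vl_of_up hp hU]
  push_cast
  ring

/-! ## The points of order `3` -/

/-- The equation in terms of `Y = 1/X`. -/
theorem Lc.eqY (h : Lc P b) {d : ℂ} (h3 : 3 * d ∈ Lam b) (hd : d ∉ Lam b) :
    cO b ^ 4 * (xO b d)⁻¹ ^ 4 =
      3 + (1 - 8 * cO b) * (xO b d)⁻¹ + 3 * (2 * cO b ^ 2) * (xO b d)⁻¹ ^ 2 := by
  have hI : IK P b d := h.i3 d 1 (by rwa [pow_one])
  obtain ⟨h0, h1, hneg⟩ := h.ext hI hd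
  have hψ := h.psi h3 hd
  have hXY : xO b d * (xO b d)⁻¹ = 1 := mul_inv_cancel₀ h0
  set X := xO b d with hX
  set Y := X⁻¹ with hY
  have h4 : (X * Y) ^ 4 * 3 + (X * Y) ^ 3 * (1 - 8 * cO b) * Y + 6 * cO b ^ 2 * (X * Y) ^ 2 * Y ^ 2 -
      cO b ^ 4 * Y ^ 4 = 0 := by
    linear_combination Y ^ 4 * hψ
  rw [hXY] at h4
  linear_combination -h4

/-- The two possible valuations. -/
theorem Lc.rt (h : Lc P b) (hb2 : vl P 3 (1 - 8 * cO b) = 1 / 2) (hb0 : 1 - 8 * cO b ≠ 0) {d : ℂ}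
    (h3 : 3 * d ∈ Lam b) (hd : d ∉ Lam b) :
    vl P 3 (xO b d) = -(1 / 6) ∨ vl P 3 (xO b d) = -(1 / 2) := by
  have := h.ab.1.1
  have hp := pl3 h.ab
  have hI : IK P b d := h.i3 d 1 (by rwa [pow_one])
  obtain ⟨h0, h1, hneg⟩ := h.ext hI hd
  have he := h.eqY h3 hd
  have hY0 : (xO b d)⁻¹ ≠ 0 := inv_ne_zero h0
  have hvY : vl P 3 (xO b d)⁻¹ = -vl P 3 (xO b d) := DL.vl_inv hp h0
  set X := xO b d with hX
  set Y := X⁻¹ with hY
  set c := cO b with hc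
  set s := vl P 3 Y with hs
  have hs0 : 0 < s := by linarith
  have hc0 : c ≠ 0 := h.c.ne_zero
  have hvc : vl P 3 c = 0 := DL.vl_of_up hp h.c
  have h3v : vl P 3 (3 : Om) = 1 := by
    have := DL.vl_two hp
    exact_mod_cast this
  have g3 : GE P 3 1 (3 : Om) := Or.inr h3v.ge
  have gY : GE P 3 s Y := Or.inr le_rfl
  have h2V : VP P (2 : Om) := by exact_mod_cast DI.VP.nat (P := P) 2
  have hL : vl P 3 (c ^ 4 * Y ^ 4) = 4 * s := by
    rw [DL.vl_mul hp (pow_ne_zero 4 hc0) (pow_ne_zero 4 hY0), DL.vl_pow hp hc0, DL.vl_pow hp hY0, hvc]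
    push_cast
    ring
  have g6 : GE P 3 (1 + s) (3 * (2 * c ^ 2) * Y ^ 2) := by
    have e : 3 * (2 * c ^ 2) * Y ^ 2 = (3 * Y) * (2 * c ^ 2 * Y) := by ring
    rw [e]
    exact GE.mul_right hp (g3.mul hp gY) ((h2V.mul (h.c.1.pow 2)).mul h1.vp)
  have hbY : vl P 3 ((1 - 8 * c) * Y) = 1 / 2 + s := by rw [DL.vl_mul hp hb0 hY0, hb2]
  have hbY0 : (1 - 8 * c) * Y ≠ 0 := mul_ne_zero hb0 hY0
  rcases lt_trichotomy s (1 / 2) with hlt | heq | hgt
  · left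
    have h5 : 3 + (1 - 8 * c) * Y + 3 * (2 * c ^ 2) * Y ^ 2 = (1 - 8 * c) * Y + (3 + 3 * (2 * c ^ 2) * Y ^ 2) := by
      ring
    have h6 : GE P 3 1 (3 + 3 * (2 * c ^ 2) * Y ^ 2) := g3.add hp (g6.mono (by linarith))
    have h7 := (DL.vl_add_lt hp hbY0 (y := 3 + 3 * (2 * c ^ 2) * Y ^ 2) (by
      rcases h6 with h8 | h8
      · exact Or.inl h8
      · right
        rw [hbY]
        linarith)).2
    rw [he, h5, h7, hbY] at hL
    linarith
  · right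
    linarith
  · exfalso
    have h5 : 3 + (1 - 8 * c) * Y + 3 * (2 * c ^ 2) * Y ^ 2 = 3 + ((1 - 8 * c) * Y + 3 * (2 * c ^ 2) * Y ^ 2) := by
      ring
    have h6 : GE P 3 (min (1 / 2 + s) (1 + s)) ((1 - 8 * c) * Y + 3 * (2 * c ^ 2) * Y ^ 2) := by
      refine GE.add hp (Or.inr ?_) (g6.mono (min_le_right _ _))
      rw [hbY]
      exact min_le_left _ _
    have h7 := (DL.vl_add_lt hp (three_ne_zero : (3 : Om) ≠ 0)
      (y := (1 - 8 * c) * Y + 3 * (2 * c ^ 2) * Y ^ 2) (by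
      rcases h6 with h8 | h8
      · exact Or.inl h8
      · right
        rw [h3v]
        refine lt_of_lt_of_le ?_ h8
        exact lt_min (by linarith) (by linarith))).2
    rw [he, h5, h7, h3v] at hL
    linarith

/-- Two different classes: the product formula. -/
theorem Lc.kmlv (h : Lc P b) {d1 d2 : ℂ} (a1 : IK P b d1) (a2 : IK P b d2) (b1 : d1 ∉ Lam b) (b2 : d2 ∉ Lam b)
    (c1 : d1 + d2 ∉ Lam b) (c2 : d1 - d2 ∉ Lam b) :
    xO b (d1 + d2) * xO b (d1 - d2) * (xO b d1 - xO b d2) ^ 2 ≠ 0 ∧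
      vl P 3 (xO b (d1 + d2) * xO b (d1 - d2) * (xO b d1 - xO b d2) ^ 2) =
        2 * (vl P 3 (xO b d1) + vl P 3 (xO b d2)) := by
  have := h.ab.1.1
  have hp := pl3 h.ab
  obtain ⟨x0, -, xn⟩ := h.ext a1 b1
  obtain ⟨y0, -, yn⟩ := h.ext a2 b2
  rw [h.X.kml d1 d2 a1.1 a2.1 b1 b2 c1 c2]
  have hxy : xO b d1 * xO b d2 ≠ 0 := mul_ne_zero x0 y0
  have hv : vl P 3 (xO b d1 * xO b d2) = vl P 3 (xO b d1) + vl P 3 (xO b d2) := DL.vl_mul hp x0 y0
  have hc : VP P (-(cO b ^ 2)) := (h.c.1.pow 2).neg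
  have hk := DL.vl_add_lt hp hxy (y := -(cO b ^ 2)) (by
    by_cases h5 : -(cO b ^ 2) = 0
    · exact Or.inl h5
    · right
      refine lt_of_lt_of_le ?_ ((DL.vl_nonneg hp h5).2 hc)
      rw [hv]
      linarith)
  have e : xO b d1 * xO b d2 - cO b ^ 2 = xO b d1 * xO b d2 + -(cO b ^ 2) := by ring
  rw [e]
  refine ⟨pow_ne_zero 2 hk.1, ?_⟩
  rw [DL.vl_pow hp hk.1, hk.2, hv]
  push_cast
  ring

/-- Not two classes with `-1/2`. -/
theorem Lc.no2 (h : Lc P b) (hb2 : vl P 3 (1 - 8 * cO b) = 1 / 2) (hb0 : 1 - 8 * cO b ≠ 0) {d1 d2 : ℂ}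
    (a1 : 3 * d1 ∈ Lam b) (a2 : 3 * d2 ∈ Lam b) (b1 : d1 ∉ Lam b) (b2 : d2 ∉ Lam b)
    (c1 : d1 + d2 ∉ Lam b) (c2 : d1 - d2 ∉ Lam b) (v1 : vl P 3 (xO b d1) = -(1 / 2))
    (v2 : vl P 3 (xO b d2) = -(1 / 2)) : False := by
  have := h.ab.1.1
  have hp := pl3 h.ab
  have hI : ∀ d : ℂ, 3 * d ∈ Lam b → IK P b d := fun d hd => h.i3 d 1 (by rwa [pow_one])
  have h3v : vl P 3 (3 : Om) = 1 := by
    have := DL.vl_two hp
    exact_mod_cast this
  have g3 : GE P 3 1 (3 : Om) := Or.inr h3v.ge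
  have h2V : VP P (2 : Om) := by exact_mod_cast DI.VP.nat (P := P) 2
  have key : ∀ d : ℂ, 3 * d ∈ Lam b → d ∉ Lam b → vl P 3 (xO b d) = -(1 / 2) →
      GE P 3 (3 / 2) (3 * xO b d + (1 - 8 * cO b)) := by
    intro d k1 k2 k3
    obtain ⟨x0, -, -⟩ := h.ext (hI d k1) k2
    have he := h.eqY k1 k2
    have hY0 : (xO b d)⁻¹ ≠ 0 := inv_ne_zero x0
    have hvY : vl P 3 (xO b d)⁻¹ = 1 / 2 := by rw [DL.vl_inv hp x0, k3, neg_neg]
    have hXY : xO b d * (xO b d)⁻¹ = 1 := mul_inv_cancel₀ x0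
    have e : 3 * xO b d + (1 - 8 * cO b) =
        cO b ^ 4 * (xO b d)⁻¹ ^ 3 - 2 * cO b ^ 2 * (3 * (xO b d)⁻¹) := by
      linear_combination (-(xO b d)) * he + (cO b ^ 4 * (xO b d)⁻¹ ^ 3 - (1 - 8 * cO b) -
        6 * cO b ^ 2 * (xO b d)⁻¹) * hXY
    have gY : GE P 3 (1 / 2) (xO b d)⁻¹ := Or.inr hvY.ge
    rw [e]
    refine GE.sub hp (GE.mul_left hp (h.c.1.pow 4) (Or.inr ?_))
      (GE.mul_left hp (h2V.mul (h.c.1.pow 2)) ((g3.mul hp gY).mono (by norm_num)))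
    rw [DL.vl_pow hp hY0, hvY]
    norm_num
  have g1 := key d1 a1 b1 v1
  have g2 := key d2 a2 b2 v2
  have g4 : GE P 3 (1 / 2) (xO b d1 - xO b d2) := by
    have h5 := (g1.sub hp g2).div hp (three_ne_zero : (3 : Om) ≠ 0)
    rw [h3v] at h5
    have e : (3 * xO b d1 + (1 - 8 * cO b) - (3 * xO b d2 + (1 - 8 * cO b))) / 3 = xO b d1 - xO b d2 := by
      ring
    rw [e] at h5
    exact h5.mono (by norm_num)
  have hr : ∀ d : ℂ, 3 * d ∈ Lam b → d ∉ Lam b → GE P 3 (-(1 / 2)) (xO b d) := by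
    intro d k1 k2
    right
    rcases h.rt hb2 hb0 k1 k2 with h5 | h5 <;> rw [h5] <;> norm_num
  have s1 : 3 * (d1 + d2) ∈ Lam b := by
    rw [mul_add]
    exact lam_add a1 a2
  have s2 : 3 * (d1 - d2) ∈ Lam b := by
    rw [mul_sub]
    exact lam_sub a1 a2
  obtain ⟨hne, hval⟩ := h.kmlv (hI d1 a1) (hI d2 a2) b1 b2 c1 c2
  have g5 : GE P 3 0 (xO b (d1 + d2) * xO b (d1 - d2) * (xO b d1 - xO b d2) ^ 2) := by
    have h6 := ((hr _ s1 c1).mul hp (hr _ s2 c2)).mul hp (g4.mul hp g4)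
    rw [← sq] at h6
    exact h6.mono (by norm_num)
  have h7 := g5.resolve_left hne
  rw [hval, v1, v2] at h7
  norm_num at h7

/-- Not all classes with `-1/6`. -/
theorem Lc.no6 (h : Lc P b) (hb2 : vl P 3 (1 - 8 * cO b) = 1 / 2) (hb0 : 1 - 8 * cO b ≠ 0) {d1 d2 : ℂ}
    (a1 : 3 * d1 ∈ Lam b) (a2 : 3 * d2 ∈ Lam b) (b1 : d1 ∉ Lam b) (b2 : d2 ∉ Lam b)
    (c1 : d1 + d2 ∉ Lam b) (c2 : d1 - d2 ∉ Lam b) (v1 : vl P 3 (xO b d1) = -(1 / 6))
    (v2 : vl P 3 (xO b d2) = -(1 / 6)) (v3 : vl P 3 (xO b (d1 + d2)) = -(1 / 6))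
    (v4 : vl P 3 (xO b (d1 - d2)) = -(1 / 6)) : False := by
  have := h.ab.1.1
  have hp := pl3 h.ab
  have hI : ∀ d : ℂ, 3 * d ∈ Lam b → IK P b d := fun d hd => h.i3 d 1 (by rwa [pow_one])
  have h3v : vl P 3 (3 : Om) = 1 := by
    have := DL.vl_two hp
    exact_mod_cast this
  have g3 : GE P 3 1 (3 : Om) := Or.inr h3v.ge
  have h2V : VP P (2 : Om) := by exact_mod_cast DI.VP.nat (P := P) 2
  have key : ∀ d : ℂ, 3 * d ∈ Lam b → d ∉ Lam b → vl P 3 (xO b d) = -(1 / 6) →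
      GE P 3 (1 / 3) ((1 - 8 * cO b) * xO b d ^ 3 - cO b ^ 4) := by
    intro d k1 k2 k3
    obtain ⟨x0, -, -⟩ := h.ext (hI d k1) k2
    have he := h.psi k1 k2
    have e : (1 - 8 * cO b) * xO b d ^ 3 - cO b ^ 4 =
        -(3 * xO b d ^ 4) - 2 * cO b ^ 2 * (3 * xO b d ^ 2) := by
      linear_combination he
    have q4 : GE P 3 (-(2 / 3)) (xO b d ^ 4) := Or.inr (by
      rw [DL.vl_pow hp x0, k3]
      norm_num)
    have q2 : GE P 3 (-(1 / 3)) (xO b d ^ 2) := Or.inr (by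
      rw [DL.vl_pow hp x0, k3]
      norm_num)
    rw [e]
    refine GE.sub hp (GE.neg hp ((g3.mul hp q4).mono (by norm_num)))
      (GE.mul_left hp (h2V.mul (h.c.1.pow 2)) ((g3.mul hp q2).mono (by norm_num)))
  have g1 := key d1 a1 b1 v1
  have g2 := key d2 a2 b2 v2
  obtain ⟨x0, -, -⟩ := h.ext (hI d1 a1) b1
  obtain ⟨y0, -, -⟩ := h.ext (hI d2 a2) b2
  have gx : GE P 3 (-(1 / 6)) (xO b d1) := Or.inr v1.ge
  have gy : GE P 3 (-(1 / 6)) (xO b d2) := Or.inr v2.ge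
  have g4 : GE P 3 (-(1 / 6)) (xO b d1 ^ 3 - xO b d2 ^ 3) := by
    have h5 := (g1.sub hp g2).div hp hb0
    rw [hb2] at h5
    have e : ((1 - 8 * cO b) * xO b d1 ^ 3 - cO b ^ 4 - ((1 - 8 * cO b) * xO b d2 ^ 3 - cO b ^ 4)) / (1 - 8 * cO b) =
        xO b d1 ^ 3 - xO b d2 ^ 3 := by
      rw [div_eq_iff hb0]
      ring
    rw [e] at h5
    exact h5.mono (by norm_num)
  have g5 : GE P 3 (-(1 / 6)) ((xO b d1 - xO b d2) ^ 3) := by
    have e : (xO b d1 - xO b d2) ^ 3 = (xO b d1 ^ 3 - xO b d2 ^ 3) -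
        3 * (xO b d1 * xO b d2 * (xO b d1 - xO b d2)) := by ring
    rw [e]
    refine g4.sub hp ?_
    exact (g3.mul hp ((gx.mul hp gy).mul hp (gx.sub hp gy))).mono (by norm_num)
  have g6 : GE P 3 (-(1 / 18)) (xO b d1 - xO b d2) := by
    by_cases h5 : xO b d1 - xO b d2 = 0
    · exact Or.inl h5
    · right
      have h6 := g5.resolve_left (pow_ne_zero 3 h5)
      rw [DL.vl_pow hp h5] at h6
      push_cast at h6
      linarith
  obtain ⟨hne, hval⟩ := h.kmlv (hI d1 a1) (hI d2 a2) b1 b2 c1 c2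
  have g7 : GE P 3 (-(4 / 9)) (xO b (d1 + d2) * xO b (d1 - d2) * (xO b d1 - xO b d2) ^ 2) := by
    have w3 : GE P 3 (-(1 / 6)) (xO b (d1 + d2)) := Or.inr v3.ge
    have w4 : GE P 3 (-(1 / 6)) (xO b (d1 - d2)) := Or.inr v4.ge
    have h6 := (w3.mul hp w4).mul hp (g6.mul hp g6)
    rw [← sq] at h6
    exact h6.mono (by norm_num)
  have h7 := g7.resolve_left hne
  rw [hval, v1, v2] at h7
  norm_num at h7

end

end K3

end Pool.Agent.DM
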