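import Pool.Agent.Lib.DU.O.L6
import Pool.Agent.Lib.DU.IfaceC
import Pool.Agent.Lib.DM.E.XOm

/-!
# Theorem DU: the numbers `κ(b) = 1/(√-D W(√-D/3))` (`S_Kp`) (author helper28)
-/

set_option autoImplicit false

open scoped Pointwise nonZeroDivisors

noncomputable section

namespace Pool.Agent.DM.DU

open Pool.Agent.MuZ Pool.Agent.FW NumberField IsDedekindDomain
open Pool.Agent.DI (io ofC io_inj exists_io io_ofC ofC_io VP MP UP TP ex)
open Pool.Agent.DN

variable {n t : ℕ}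

theorem T3_tor [SqN n t] : Tor n t (T3 n t) := ⟨sD n t, 3, by norm_num, by unfold T3; norm_num⟩

theorem T3_three [SqN n t] (b : Ideal (OO n t)) : (3 : ℂ) * T3 n t ∈ Lam b := by
  have e : (3 : ℂ) * T3 n t = toC (sD n t) := by
    unfold T3
    field_simp
  rw [e]
  have h5 : toC (sD n t) ∈ Lam (⊤ : Ideal (OO n t)) := lam_top.2 ⟨_, rfl⟩
  exact lam_anti le_top h5

theorem g3 {b : Ideal (OO n t)} (hb : G30 b) : PrI b 3 := Eb.pri_dvd hb.cop ⟨10, rfl⟩

theorem toO_sD_ne [SqN n t] : toO (sD n t) ≠ 0 := by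
  intro h
  have h1 := congrArg io h
  rw [io_toO, map_zero, toC_eq_zero] at h1
  have h2 := congrArg QuadraticAlgebra.im h1
  simp only [sD] at h2
  norm_num at h2

/-- `W(T3) ≠ 0`. -/
theorem wT3 (hX : DM.S_XOm) [Ram3 n t] {b : Ideal (OO n t)} (hb : G30 b) : vO b (T3 n t) ≠ 0 := by
  obtain ⟨-, h1, h2, -⟩ := zL6 n t b hb.ne (g3 hb)
  exact fun h => h2 (((hX n t b hb).two _ T3_tor h1).1 h)

theorem kp_ne (hX : DM.S_XOm) [Ram3 n t] {b : Ideal (OO n t)} (hb : G30 b) : kp b ≠ 0 := by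
  unfold kp
  exact one_div_ne_zero (mul_ne_zero toO_sD_ne (wT3 hX hb))

/-- Exact homogeneity. -/
theorem kp_hom (hX : DM.S_XOm) [Ram3 n t] {b : Ideal (OO n t)} (hb : G30 b) (α : OO n t)
    (h4 : (4 : OO n t) ∣ α - 1) (h30 : Cop α 30) : kp (sp α * b) = zs α * kp b := by
  have X := hX n t b hb
  have hα0 : α ≠ 0 := by
    rintro rfl
    unfold Cop at h30
    rw [Nm_zero] at h30
    have := isCoprime_zero_left.1 h30
    rw [Int.isUnit_iff] at this
    rcases this with h | h <;> norm_num at h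
  obtain ⟨-, -, -, -, hz, -⟩ := zL6 n t b hb.ne (g3 hb)
  obtain ⟨-, -, h5⟩ := X.hom α hα0 h4 h30
  have h6 : vO (sp α * b) (T3 n t) = vO b ((zs α : ℂ) * T3 n t) := by
    rw [(h5 _).2]
    exact (X.cng _ _ (hz α)).2
  have hne : zs α ≠ 0 := by
    rw [Ne, zs_zero, ← cop3_pp]
    have h3c : Cop α 3 := cop_dvd h30 ⟨10, by norm_num⟩
    exact h3c
  unfold kp
  rw [h6]
  rcases (zs_ph α).2 with h | h | h
  · rw [h]
    push_cast
    rw [one_mul, one_mul]
  · rw [h]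
    push_cast
    rw [neg_one_mul, (X.neg _ T3_tor).2, mul_neg, div_neg, neg_one_mul]
  · exact absurd h hne

/-- The isogeny at the point `T3`. -/
theorem isoT (hX : DM.S_XOm) (hD1 : DM.S_D1) (hD2 : S_D2) [Ram3 n t] {P : Ideal ZZ} (hP : Ab3 P)
    (h2P : ¬ MP P 2) {b : Ideal (OO n t)} (hb : G30 b) {a : Ideal (OO n t)} (ha : a ≠ ⊥) (ha30 : PrI a 30) :
    VP P (rO b (a * b) ^ 3 * vO (a * b) (T3 n t) - vO b (T3 n t)) := by
  have : P.IsPrime := hP.1.1
  have hab : G30 (a * b) := G30.mul ⟨ha, ha30⟩ hb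
  obtain ⟨-, -, R, hR, -⟩ := aL3 n t a b ha hb.ne
  have X := hX n t b hb
  rw [(X.sum a ha ha30 R hR).2 _ T3_tor (zL6 n t _ hab.ne (g3 hab)).2.1]
  obtain ⟨u0, hu0, hu0'⟩ := hR.ex 0 (lam_zero _)
  rw [zero_sub] at hu0'
  have hu1 : u0 ∈ Lam b := lam_neg_iff.1 hu0'
  rw [← Finset.add_sum_erase R _ hu0, (X.per _ _ hu1).2, add_sub_cancel_left]
  refine DI.VP.sum _ _ fun u hu => ?_
  obtain ⟨hne, huR⟩ := Finset.mem_erase.1 hu
  have hub : u ∉ Lam b := fun h => hne (hR.uni u huR u0 hu0 (lam_sub h hu1))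
  have hTu : Tor n t u := sys_tor ha hb.ne hR huR
  obtain ⟨d1, -, d3, -, d5, -⟩ := hD1 n t P hP.1 h2P b hb
  obtain ⟨e1, -, e3, -⟩ := hD2 n t P hP b hb
  have hK3 : IK P b (T3 n t) := e1 _ 1 (by rw [pow_one]; exact T3_three b)
  refine (e3 _ (tor_add T3_tor hTu) fun hK => hub ?_).2
  have hKu : IK P b u := by
    have hneg := d3 (-1) _ hK3
    rw [toC_neg, toC_one] at hneg
    have := d1 _ _ hK hneg
    have e : T3 n t + u + -1 * T3 n t = u := by ring
    rwa [e] at this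
  have hQ := d5 u hKu
  have hN0 : ¬ MP P (toO ((NI a : ℕ) : OO n t)) := by
    have h3 : PrI a 3 := Eb.pri_dvd ha30 ⟨10, rfl⟩
    have hco := ((aO6 n t).2.2.1 3 a (by norm_num)).1 h3
    intro hM
    have e : toO ((NI a : ℕ) : OO n t) = ((NI a : ℕ) : Om) := by
      apply io_inj
      rw [io_toO, toC_nat, map_natCast]
    rw [e] at hM
    obtain ⟨x, y, hxy⟩ := Nat.isCoprime_iff_coprime.2 hco
    have h5 : MP P ((x : Om) * (NI a : Om) + (y : Om) * 3) :=
      (DI.MP.mul_left (DI.VP.int x) hM).add (DI.MP.mul_left (DI.VP.int y) hP.2)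
    have h6 := congrArg (Int.cast : ℤ → Om) hxy
    push_cast at h6
    rw [h6] at h5
    exact DI.MP.one_not h5
  have h7 := hQ ((NI a : ℕ) : OO n t) 1 hN0 ?_
  · rw [toC_one, one_mul] at h7
    exact h7
  · rw [mul_one]
    exact lam_prod.1 (hR.mem u huR) _ (Ideal.absNorm_mem a)

/-- **`S_Kp`.** -/
theorem sKp (hX : DM.S_XOm) (hD1 : DM.S_D1) (hD2 : S_D2) (hD10 : S_D10) (hw : w4 ^ 4 = 3) : S_Kp := by
  refine ⟨fun n t _ b hb α h4 h30 => ⟨kp_ne hX hb, kp_hom hX hb α h4 h30⟩, ?_⟩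
  intro n t _ P hP b hb
  have : P.IsPrime := hP.1.1
  obtain ⟨D', hD, hco⟩ := D3 (n := n) (t := t)
  have v3 : MP P (3 : Om) := hP.2
  have h2P : ¬ MP P 2 := by
    intro h2
    have h := DI.MP.sub v3 h2
    have e : (3 : Om) - 2 = 1 := by norm_num
    rw [e] at h
    exact DI.MP.one_not h
  have w0 : w4 ≠ 0 := by
    intro h0
    rw [h0] at hw
    norm_num at hw
  have hs2 : toO (sD n t) ^ 2 = -(3 * (D' : Om)) := by
    apply io_inj
    rw [map_pow, io_toO, ← toC_pow, sq, sD_sq, toC_neg, toC_nat, hD, map_neg, map_mul, map_natCast]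
    have e3 : io (3 : Om) = 3 := by
      have := map_natCast io 3
      exact_mod_cast this
    rw [e3]
    push_cast
    ring
  have hD'u : UP P (D' : Om) := by
    refine ⟨DI.VP.nat D', fun hM => ?_⟩
    obtain ⟨x, y, hxy⟩ := Nat.isCoprime_iff_coprime.2 hco
    have h5 : MP P ((x : Om) * (D' : Om) + (y : Om) * 3) :=
      (DI.MP.mul_left (DI.VP.int x) hM).add (DI.MP.mul_left (DI.VP.int y) v3)
    have h6 := congrArg (Int.cast : ℤ → Om) hxy
    push_cast at h6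
    rw [h6] at h5
    exact DI.MP.one_not h5
  obtain ⟨-, -, hW⟩ := hD10 n t P hP b hb
  have hne := wT3 hX hb
  have sne := toO_sD_ne (n := n) (t := t)
  constructor
  · refine DI.UP.of_pow (n := 4) (by norm_num) ?_
    have e : (kp b / w4) ^ 4 = ((27 * vO b (T3 n t) ^ 4) * (D' : Om) ^ 2)⁻¹ := by
      have e1 : toO (sD n t) ^ 4 = 9 * (D' : Om) ^ 2 := by
        have : toO (sD n t) ^ 4 = (toO (sD n t) ^ 2) ^ 2 := by ring
        rw [this, hs2]
        ring
      unfold kp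
      rw [div_pow, div_pow, mul_pow, one_pow, e1, hw, div_div, one_div]
      congr 1
      ring
    rw [e]
    exact (hW.mul (hD'u.pow 2)).inv
  · intro a ha ha30
    have hab : G30 (a * b) := G30.mul ⟨ha, ha30⟩ hb
    have hne' := wT3 hX hab
    have hI := isoT hX hD1 hD2 hP h2P hb ha ha30
    have hr : UP P (rO b (a * b)) := (hD2 n t P hP b hb).2.2.2.2.2.2 a ha ha30
    have hWi : MP P (vO b (T3 n t))⁻¹ := by
      refine DI.MP.of_pow (n := 4) ?_
      have e : (vO b (T3 n t))⁻¹ ^ 4 = 3 * (9 * (27 * vO b (T3 n t) ^ 4)⁻¹) := by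
        have h27 : (27 : Om) ≠ 0 := by norm_num
        rw [mul_inv]
        field_simp
        norm_num
      rw [e]
      have v9 : VP P (9 : Om) := by exact_mod_cast DI.VP.nat 9
      exact DI.MP.mul_right v3 (v9.mul hW.inv.1)
    obtain ⟨I, hIe⟩ : ∃ I : Om, I = rO b (a * b) ^ 3 * vO (a * b) (T3 n t) - vO b (T3 n t) := ⟨_, rfl⟩
    rw [← hIe] at hI
    have hu : UP P (1 + I * (vO b (T3 n t))⁻¹) := by
      refine DI.UP.congr DI.UP.one ?_
      rw [add_sub_cancel_left]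
      exact DI.MP.mul_left hI hWi
    have hq : rO b (a * b) ^ 3 * vO (a * b) (T3 n t) = vO b (T3 n t) * (1 + I * (vO b (T3 n t))⁻¹) := by
      rw [hIe]
      field_simp
      ring
    have e : kp (a * b) / kp b - rO b (a * b) ^ 3 =
        -(rO b (a * b) ^ 3 * (I * (vO b (T3 n t))⁻¹)) * (1 + I * (vO b (T3 n t))⁻¹)⁻¹ := by
      have h0 := hu.ne_zero
      have e1 : kp (a * b) / kp b = vO b (T3 n t) / vO (a * b) (T3 n t) := by
        unfold kp
        field_simp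
      have e2 : vO b (T3 n t) / vO (a * b) (T3 n t) =
          rO b (a * b) ^ 3 * (1 + I * (vO b (T3 n t))⁻¹)⁻¹ := by
        rw [div_eq_iff hne']
        have e3 : rO b (a * b) ^ 3 * (1 + I * (vO b (T3 n t))⁻¹)⁻¹ * vO (a * b) (T3 n t) =
            (rO b (a * b) ^ 3 * vO (a * b) (T3 n t)) * (1 + I * (vO b (T3 n t))⁻¹)⁻¹ := by ring
        rw [e3, hq, mul_assoc, mul_inv_cancel₀ h0, mul_one]
      have e4 : (1 + I * (vO b (T3 n t))⁻¹) * (1 + I * (vO b (T3 n t))⁻¹)⁻¹ = 1 := mul_inv_cancel₀ h0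
      rw [e1, e2]
      linear_combination (rO b (a * b) ^ 3) * e4
    rw [e]
    exact DI.MP.mul_right (DI.MP.neg (DI.MP.mul_left (hr.pow 3).1 (DI.MP.mul_left hI hWi))) hu.inv.1

end Pool.Agent.DM.DU
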